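import Pool.Agent.Helper16.MD.Stmts

/-! Module FOU: the mean square of a sum of dilated functions. -/

set_option autoImplicit false

open Finset Filter
open scoped ComplexConjugate

namespace Pool.Agent.Helper16.MD

theorem fou_per (e : ℕ → ℂ) (Λ : ℕ) (h : ∀ x, e (x + Λ) = e x) (x k : ℕ) :
    e (x + k * Λ) = e x := by
  induction k with
  | zero => simp
  | succ k ih => rw [Nat.succ_mul, ← Nat.add_assoc, h, ih]

theorem fou_mod (e : ℕ → ℂ) (Λ : ℕ) (h : ∀ x, e (x + Λ) = e x) (x : ℕ) :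
    e (x % Λ) = e x := by
  have h1 := fou_per e Λ h (x % Λ) (x / Λ)
  rw [Nat.mul_comm, Nat.mod_add_div] at h1
  exact h1.symm

theorem fou_val (n Λ P a z : ℕ) [NeZero (n * Λ)] (e : ℕ → ℂ) (h : ∀ x, e (x + Λ) = e x) :
    e (((P : ZMod (n * Λ)) * (z : ZMod (n * Λ)) + (a : ZMod (n * Λ))).val / n) =
      e ((P * z + a) / n) := by
  have h1 : (P : ZMod (n * Λ)) * (z : ZMod (n * Λ)) + (a : ZMod (n * Λ)) =
      ((P * z + a : ℕ) : ZMod (n * Λ)) := by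
    push_cast
    rfl
  rw [h1, ZMod.val_natCast, Nat.mod_mul_right_div_self, fou_mod e Λ h]

theorem fou_bij {D : ℕ} [NeZero D] (u : ZMod D) (hu : IsUnit u) :
    Function.Bijective (fun Z : ZMod D => u⁻¹ * Z) := by
  constructor
  · intro x y h
    have h' : u⁻¹ * x = u⁻¹ * y := h
    calc x = (u * u⁻¹) * x := by rw [ZMod.mul_inv_of_unit u hu, one_mul]
      _ = u * (u⁻¹ * x) := by ring
      _ = u * (u⁻¹ * y) := by rw [h']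
      _ = (u * u⁻¹) * y := by ring
      _ = y := by rw [ZMod.mul_inv_of_unit u hu, one_mul]
  · intro y
    refine ⟨u * y, ?_⟩
    change u⁻¹ * (u * y) = y
    rw [← mul_assoc, ZMod.inv_mul_of_unit u hu, one_mul]

theorem fou_sum (D : ℕ) [NeZero D] (f : ZMod D → ℝ) :
    ∑ z : ZMod D, f z = ∑ z ∈ range D, f (z : ZMod D) := by
  refine Finset.sum_nbij' (fun z => z.val) (fun z => (z : ZMod D)) ?_ ?_ ?_ ?_ ?_
  · intro z _
    exact Finset.mem_range.mpr (ZMod.val_lt z)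
  · intro z _
    exact Finset.mem_univ _
  · intro z _
    exact ZMod.natCast_zmod_val z
  · intro z hz
    exact ZMod.val_cast_of_lt (Finset.mem_range.mp hz)
  · intro z _
    rw [ZMod.natCast_zmod_val]

theorem fou_main (hDIL : ST_DIL) (hTAL : ST_TAL) (n Λ T a : ℕ) (B : Finset (ℕ × ℕ × ℕ))
    (e : ℕ × ℕ × ℕ → ℕ → ℂ) (ρ : ℝ) (hn : 1 ≤ n) (hΛ : 1 ≤ Λ) (hT : 1 ≤ T) (hρ : 0 ≤ ρ)
    (hB : ∀ s ∈ B, (pr s).Coprime (n * Λ)) (he : ∀ s x, ‖e s x‖ ≤ 1)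
    (hp : ∀ s x, e s (x + Λ) = e s x)
    (hc : ∀ Z : ZMod (n * Λ), Z ≠ 0 → ((B.filter fun s =>
      |((pr s : ZMod (n * Λ))⁻¹ * Z).valMinAbs| ≤ ((T * Λ : ℕ) : ℤ)).card : ℝ) ≤ ρ * B.card) :
    (∑ z ∈ range (n * Λ), ‖∑ s ∈ B, e s ((pr s * z + a) / n)‖ ^ 2) / ((n : ℝ) * Λ) ≤
      (2 * ρ + 2 / T) * (B.card : ℝ) ^ 2 + ‖∑ s ∈ B, (∑ x ∈ range Λ, e s x) / (Λ : ℂ)‖ ^ 2 := by
  classical
  have hD : NeZero (n * Λ) := ⟨Nat.mul_ne_zero (by omega) (by omega)⟩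
  obtain ⟨F, hF⟩ : ∃ F : ℕ × ℕ × ℕ → ZMod (n * Λ) → ℂ, ∀ s x, F s x = e s (x.val / n) :=
    ⟨fun s x => e s (x.val / n), fun _ _ => rfl⟩
  obtain ⟨u, hu⟩ : ∃ u : ℕ × ℕ × ℕ → ZMod (n * Λ), ∀ s, u s = (pr s : ZMod (n * Λ)) :=
    ⟨fun s => (pr s : ZMod (n * Λ)), fun _ => rfl⟩
  have huB : ∀ s ∈ B, IsUnit (u s) := by
    intro s hs
    rw [hu, ZMod.isUnit_iff_coprime]
    exact hB s hs
  have hFe : ∀ s, F s = fun x : ZMod (n * Λ) => e s (x.val / n) := fun s => funext (hF s)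
  have hdil := hDIL (n * Λ) B u F (a : ZMod (n * Λ)) huB
  rw [fou_sum] at hdil
  have h1 : ∑ z ∈ range (n * Λ), ‖∑ s ∈ B, F s (u s * (z : ZMod (n * Λ)) + (a : ZMod (n * Λ)))‖ ^ 2 =
      ∑ z ∈ range (n * Λ), ‖∑ s ∈ B, e s ((pr s * z + a) / n)‖ ^ 2 := by
    refine Finset.sum_congr rfl fun z _ => ?_
    congr 2
    refine Finset.sum_congr rfl fun s _ => ?_
    rw [hF, hu]
    exact fou_val n Λ (pr s) a z (e s) (hp s)
  rw [h1] at hdil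
  have hcast : ((n * Λ : ℕ) : ℝ) = (n : ℝ) * Λ := by
    push_cast
    rfl
  rw [hcast] at hdil
  rw [hdil]
  obtain ⟨A, hA⟩ : ∃ A : ℕ × ℕ × ℕ → ZMod (n * Λ) → ℝ, ∀ s Z, A s Z = ‖hat (F s) ((u s)⁻¹ * Z)‖ :=
    ⟨fun s Z => ‖hat (F s) ((u s)⁻¹ * Z)‖, fun _ _ => rfl⟩
  have hA0 : ∀ s Z, 0 ≤ A s Z := fun s Z => by
    rw [hA]
    exact norm_nonneg _
  have hed : ∀ x : ZMod (n * Λ), ‖ed x‖ = 1 := fun x => AddChar.norm_apply _ _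
  have hBc : (0 : ℝ) ≤ (B.card : ℝ) := Nat.cast_nonneg _
  -- the parts
  have hlow : ∀ Z : ZMod (n * Λ), Z ≠ 0 →
      ‖∑ s ∈ B, hat (F s) ((u s)⁻¹ * Z) * ed ((u s)⁻¹ * Z * (a : ZMod (n * Λ)))‖ ^ 2 ≤
        2 * (ρ * B.card * ∑ s ∈ B, A s Z ^ 2) +
        2 * (B.card * ∑ s ∈ B.filter (fun s => ((T * Λ : ℕ) : ℤ) < |((u s)⁻¹ * Z).valMinAbs|),
          A s Z ^ 2) := by
    intro Z hZ
    have g1 : ‖∑ s ∈ B, hat (F s) ((u s)⁻¹ * Z) * ed ((u s)⁻¹ * Z * (a : ZMod (n * Λ)))‖ ≤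
        ∑ s ∈ B, A s Z := by
      refine le_trans (norm_sum_le _ _) (Finset.sum_le_sum fun s _ => ?_)
      rw [norm_mul, hed, mul_one, hA]
    have g2 : ∑ s ∈ B, A s Z =
        ∑ s ∈ B.filter (fun s => ((T * Λ : ℕ) : ℤ) < |((u s)⁻¹ * Z).valMinAbs|), A s Z +
        ∑ s ∈ B.filter (fun s => ¬ ((T * Λ : ℕ) : ℤ) < |((u s)⁻¹ * Z).valMinAbs|), A s Z :=
      (Finset.sum_filter_add_sum_filter_not _ _ _).symm
    obtain ⟨x, hx⟩ : ∃ x : ℝ, x =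
        ∑ s ∈ B.filter (fun s => ((T * Λ : ℕ) : ℤ) < |((u s)⁻¹ * Z).valMinAbs|), A s Z := ⟨_, rfl⟩
    obtain ⟨y, hy⟩ : ∃ y : ℝ, y =
        ∑ s ∈ B.filter (fun s => ¬ ((T * Λ : ℕ) : ℤ) < |((u s)⁻¹ * Z).valMinAbs|), A s Z :=
      ⟨_, rfl⟩
    rw [← hx, ← hy] at g2
    have gx : x ^ 2 ≤ B.card *
        ∑ s ∈ B.filter (fun s => ((T * Λ : ℕ) : ℤ) < |((u s)⁻¹ * Z).valMinAbs|), A s Z ^ 2 := by
      rw [hx]
      refine le_trans sq_sum_le_card_mul_sum_sq ?_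
      refine mul_le_mul_of_nonneg_right ?_ (Finset.sum_nonneg fun s _ => sq_nonneg _)
      exact_mod_cast Finset.card_filter_le _ _
    have gy : y ^ 2 ≤ ρ * B.card * ∑ s ∈ B, A s Z ^ 2 := by
      rw [hy]
      refine le_trans sq_sum_le_card_mul_sum_sq ?_
      have q1 : ((B.filter (fun s => ¬ ((T * Λ : ℕ) : ℤ) < |((u s)⁻¹ * Z).valMinAbs|)).card : ℝ) ≤
          ρ * B.card := by
        have q2 : B.filter (fun s => ¬ ((T * Λ : ℕ) : ℤ) < |((u s)⁻¹ * Z).valMinAbs|) =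
            B.filter fun s => |((pr s : ZMod (n * Λ))⁻¹ * Z).valMinAbs| ≤ ((T * Λ : ℕ) : ℤ) := by
          refine Finset.filter_congr fun s _ => ?_
          rw [hu, not_lt]
        rw [q2]
        exact hc Z hZ
      refine mul_le_mul q1 ?_ (Finset.sum_nonneg fun s _ => sq_nonneg _)
        (mul_nonneg hρ hBc)
      exact Finset.sum_le_sum_of_subset_of_nonneg (Finset.filter_subset _ _)
        (fun s _ _ => sq_nonneg _)
    have g3 : ‖∑ s ∈ B, hat (F s) ((u s)⁻¹ * Z) * ed ((u s)⁻¹ * Z * (a : ZMod (n * Λ)))‖ ^ 2 ≤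
        (x + y) ^ 2 := by
      refine pow_le_pow_left₀ (norm_nonneg _) ?_ 2
      rw [← g2]
      exact g1
    nlinarith [sq_nonneg (x - y)]
  -- Fourier bounds
  have hT1 : ∀ s, ∑ X : ZMod (n * Λ), ‖hat (F s) X‖ ^ 2 ≤ 1 := by
    intro s
    rw [hFe s]
    exact (hTAL n Λ T (e s) hT (he s) (hp s)).2.1
  have hT2 : ∀ s, ∑ X ∈ (univ : Finset (ZMod (n * Λ))).filter
      (fun X => ((T * Λ : ℕ) : ℤ) < |X.valMinAbs|), ‖hat (F s) X‖ ^ 2 ≤ 1 / T := by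
    intro s
    rw [hFe s]
    exact (hTAL n Λ T (e s) hT (he s) (hp s)).2.2
  have hT0 : ∀ s, hat (F s) 0 = (∑ x ∈ range Λ, e s x) / Λ := by
    intro s
    rw [hFe s]
    exact (hTAL n Λ T (e s) hT (he s) (hp s)).1
  have hS1 : ∀ s ∈ B, ∑ Z : ZMod (n * Λ), A s Z ^ 2 ≤ 1 := by
    intro s hs
    have e1 : ∑ Z : ZMod (n * Λ), A s Z ^ 2 = ∑ X : ZMod (n * Λ), ‖hat (F s) X‖ ^ 2 := by
      rw [← (fou_bij (u s) (huB s hs)).sum_comp (fun X => ‖hat (F s) X‖ ^ 2)]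
      exact Finset.sum_congr rfl fun Z _ => by rw [hA]
    rw [e1]
    exact hT1 s
  have hS2 : ∀ s ∈ B, ∑ Z : ZMod (n * Λ),
      (if ((T * Λ : ℕ) : ℤ) < |((u s)⁻¹ * Z).valMinAbs| then A s Z ^ 2 else 0) ≤ 1 / T := by
    intro s hs
    have e1 : ∑ Z : ZMod (n * Λ),
        (if ((T * Λ : ℕ) : ℤ) < |((u s)⁻¹ * Z).valMinAbs| then A s Z ^ 2 else 0) =
        ∑ X : ZMod (n * Λ), (if ((T * Λ : ℕ) : ℤ) < |X.valMinAbs| then ‖hat (F s) X‖ ^ 2 else 0) := by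
      rw [← (fou_bij (u s) (huB s hs)).sum_comp
        (fun X => if ((T * Λ : ℕ) : ℤ) < |X.valMinAbs| then ‖hat (F s) X‖ ^ 2 else 0)]
      exact Finset.sum_congr rfl fun Z _ => by rw [hA]
    rw [e1, ← Finset.sum_filter]
    exact hT2 s
  -- summation
  rw [← Finset.add_sum_erase univ _ (Finset.mem_univ (0 : ZMod (n * Λ)))]
  have hz : ‖∑ s ∈ B, hat (F s) ((u s)⁻¹ * 0) * ed ((u s)⁻¹ * 0 * (a : ZMod (n * Λ)))‖ ^ 2 =
      ‖∑ s ∈ B, (∑ x ∈ range Λ, e s x) / (Λ : ℂ)‖ ^ 2 := by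
    congr 2
    refine Finset.sum_congr rfl fun s _ => ?_
    rw [mul_zero, zero_mul, hT0]
    have : ed (0 : ZMod (n * Λ)) = 1 := AddChar.map_zero_eq_one _
    rw [this, mul_one]
  have hrest : ∑ Z ∈ univ.erase (0 : ZMod (n * Λ)),
      ‖∑ s ∈ B, hat (F s) ((u s)⁻¹ * Z) * ed ((u s)⁻¹ * Z * (a : ZMod (n * Λ)))‖ ^ 2 ≤
      (2 * ρ + 2 / T) * (B.card : ℝ) ^ 2 := by
    have r1 : ∑ Z ∈ univ.erase (0 : ZMod (n * Λ)),
        ‖∑ s ∈ B, hat (F s) ((u s)⁻¹ * Z) * ed ((u s)⁻¹ * Z * (a : ZMod (n * Λ)))‖ ^ 2 ≤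
        ∑ Z : ZMod (n * Λ), (2 * (ρ * B.card * ∑ s ∈ B, A s Z ^ 2) +
        2 * (B.card * ∑ s ∈ B.filter (fun s => ((T * Λ : ℕ) : ℤ) < |((u s)⁻¹ * Z).valMinAbs|),
          A s Z ^ 2)) := by
      refine le_trans (Finset.sum_le_sum fun Z hZ => hlow Z (Finset.ne_of_mem_erase hZ)) ?_
      refine Finset.sum_le_sum_of_subset_of_nonneg (Finset.erase_subset _ _) fun Z _ _ => ?_
      have p1 : 0 ≤ ∑ s ∈ B, A s Z ^ 2 := Finset.sum_nonneg fun s _ => sq_nonneg _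
      have p2 : 0 ≤ ∑ s ∈ B.filter (fun s => ((T * Λ : ℕ) : ℤ) < |((u s)⁻¹ * Z).valMinAbs|),
          A s Z ^ 2 := Finset.sum_nonneg fun s _ => sq_nonneg _
      positivity
    have r2 : ∑ Z : ZMod (n * Λ), (2 * (ρ * B.card * ∑ s ∈ B, A s Z ^ 2) +
        2 * (B.card * ∑ s ∈ B.filter (fun s => ((T * Λ : ℕ) : ℤ) < |((u s)⁻¹ * Z).valMinAbs|),
          A s Z ^ 2)) =
        2 * (ρ * B.card * ∑ s ∈ B, ∑ Z : ZMod (n * Λ), A s Z ^ 2) +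
        2 * (B.card * ∑ s ∈ B, ∑ Z : ZMod (n * Λ),
          (if ((T * Λ : ℕ) : ℤ) < |((u s)⁻¹ * Z).valMinAbs| then A s Z ^ 2 else 0)) := by
      have c1 : ∑ Z : ZMod (n * Λ), ∑ s ∈ B, A s Z ^ 2 =
          ∑ s ∈ B, ∑ Z : ZMod (n * Λ), A s Z ^ 2 := Finset.sum_comm
      have c2 : ∑ Z : ZMod (n * Λ),
          ∑ s ∈ B.filter (fun s => ((T * Λ : ℕ) : ℤ) < |((u s)⁻¹ * Z).valMinAbs|), A s Z ^ 2 =
          ∑ s ∈ B, ∑ Z : ZMod (n * Λ),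
            (if ((T * Λ : ℕ) : ℤ) < |((u s)⁻¹ * Z).valMinAbs| then A s Z ^ 2 else 0) := by
        rw [Finset.sum_comm]
        refine Finset.sum_congr rfl fun Z _ => ?_
        rw [Finset.sum_filter]
      rw [Finset.sum_add_distrib, ← Finset.mul_sum, ← Finset.mul_sum, ← Finset.mul_sum,
        ← Finset.mul_sum, c1, c2]
    have r3 : ∑ s ∈ B, ∑ Z : ZMod (n * Λ), A s Z ^ 2 ≤ (B.card : ℝ) := by
      refine le_trans (Finset.sum_le_sum hS1) ?_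
      simp
    have r4 : ∑ s ∈ B, ∑ Z : ZMod (n * Λ),
        (if ((T * Λ : ℕ) : ℤ) < |((u s)⁻¹ * Z).valMinAbs| then A s Z ^ 2 else 0) ≤
        (B.card : ℝ) * (1 / T) := by
      refine le_trans (Finset.sum_le_sum hS2) ?_
      rw [Finset.sum_const, nsmul_eq_mul]
    refine le_trans r1 ?_
    rw [r2]
    have r5 := mul_le_mul_of_nonneg_left r3 (mul_nonneg hρ hBc)
    have r6 := mul_le_mul_of_nonneg_left r4 hBc
    calc _ ≤ 2 * (ρ * B.card * B.card) + 2 * (B.card * (B.card * (1 / T))) := by linarith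
      _ = (2 * ρ + 2 / T) * (B.card : ℝ) ^ 2 := by ring
  rw [hz]
  linarith

theorem st_FOU (hDIL : ST_DIL) (hTAL : ST_TAL) : ST_FOU := by
  intro n Λ T a B e ρ hn hΛ hT hρ hB he hp hc
  exact fou_main hDIL hTAL n Λ T a B e ρ hn hΛ hT hρ hB he hp hc

end Pool.Agent.Helper16.MD
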